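import Pool.Agent.U150.SM.Space

/-!
# Stable multi-matchings with many degree-one vertices can percolate

`ν` is a law on `{2, 3, …}` with `k ν([k, ∞)) / log log k → ∞`, `μ = p δ₁ + (1 - p) ν` with any
`p < 1`. In every dimension `d ≥ 1` the stable multi-matching with degree law `μ` almost surely has
an infinite component. Hence no `p₀(ν, d) < 1` as in Q1 exists for such `ν`.

Idea: two points with more stubs than there are points in a large ball around both are adjacent
in every stable multi-matching, and almost surely all late dyadic shells contain such a point.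

The definitions are in `Pool/Agent/U150/SM/Defs.lean`.
-/

set_option autoImplicit false

namespace Pool.Agent.Results.MP_bae357_pr.HeavyTailsPercolate

open MeasureTheory ProbabilityTheory Set Filter Topology
open scoped ENNReal NNReal
open Pool.Agent.U150.SM

/-- `μ = p δ₁ + (1 - p) ν` -/
def IsMixture (p : ℝ) (ν μ : PMF ℕ) : Prop :=
  ∀ n, μ n = ENNReal.ofReal p * (if n = 1 then 1 else 0) + ENNReal.ofReal (1 - p) * ν n

theorem exists_mixture {p : ℝ} (hp0 : 0 ≤ p) (hp1 : p < 1) (ν : PMF ℕ) :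
    ∃ μ : PMF ℕ, IsMixture p ν μ := by
  refine ⟨⟨fun n => ENNReal.ofReal p * (if n = 1 then 1 else 0) + ENNReal.ofReal (1 - p) * ν n,
    ?_⟩, fun n => rfl⟩
  rw [ENNReal.summable.hasSum_iff, ENNReal.tsum_add, ENNReal.tsum_mul_left, ENNReal.tsum_mul_left,
    ν.tsum_coe, tsum_ite_eq, mul_one, mul_one, ← ENNReal.ofReal_add hp0 (by linarith)]
  simp

theorem heavy_mixture {p : ℝ} (hp1 : p < 1) {ν μ : PMF ℕ} (h : IsMixture p ν μ)
    (hν : HeavyTail ν) : HeavyTail μ := by
  refine heavy_of_le (c := 1 - p) (by linarith) hν fun k => ?_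
  rw [tail_eq, tail_eq]
  have h1 : ENNReal.ofReal (1 - p) * ∑' n : ℕ, ν (n + k) ≤ ∑' n : ℕ, μ (n + k) := by
    rw [← ENNReal.tsum_mul_left]
    refine ENNReal.tsum_le_tsum fun n => ?_
    rw [h (n + k)]
    exact le_add_self
  have h2 : (∑' n : ℕ, μ (n + k)) ≠ ∞ := by
    refine ne_top_of_le_ne_top ENNReal.one_ne_top ?_
    rw [← μ.tsum_coe]
    exact ENNReal.tsum_comp_le_tsum_of_injective (add_left_injective k) _
  have h3 := ENNReal.toReal_mono h2 h1
  rwa [ENNReal.toReal_mul, ENNReal.toReal_ofReal (by linarith)] at h3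

/-- There are laws `ν` on `{2, 3, …}` with `k ν([k, ∞)) / log log k → ∞`. For every dimension
`d ≥ 1`, every such `ν` and every `p ∈ [0, 1)`, let `μ = p δ₁ + (1 - p) ν`. For the Poisson process
of intensity one in `ℝ^d` with independent numbers of stubs of law `μ` (which exists), almost
surely a stable multi-matching exists, and in every stable multi-matching all the stubs are used
and there is an infinite component. -/
theorem result :
    (∃ ν : PMF ℕ, ν 0 = 0 ∧ ν 1 = 0 ∧ HeavyTail ν) ∧
    ∀ d : ℕ, 1 ≤ d → ∀ ν : PMF ℕ, ν 0 = 0 → ν 1 = 0 → HeavyTail ν →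
      ∀ p : ℝ, 0 ≤ p → p < 1 → ∃ μ : PMF ℕ, IsMixture p ν μ ∧
        (∃ (Ω : Type) (_ : MeasurableSpace Ω) (P : Measure Ω) (_ : IsProbabilityMeasure P)
          (x : ℕ → Ω → EuclideanSpace ℝ (Fin d)) (D : ℕ → Ω → ℕ), IsMarkedPoisson P μ x D) ∧
        ∀ (Ω : Type) [MeasurableSpace Ω] (P : Measure Ω) [IsProbabilityMeasure P]
          (x : ℕ → Ω → EuclideanSpace ℝ (Fin d)) (D : ℕ → Ω → ℕ), IsMarkedPoisson P μ x D →
          ∀ᵐ ω ∂P,
            (∃ G, IsStableMultiMatching (fun i => x i ω) (fun i => D i ω) G) ∧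
            ∀ G, IsStableMultiMatching (fun i => x i ω) (fun i => D i ω) G →
              (∀ i, (G.neighborSet i).encard = D i ω) ∧ HasInfiniteComponent G := by
  refine ⟨⟨law 2, ?_, ?_, heavy_law 2⟩, ?_⟩
  · rw [law_apply, if_neg (by omega)]
  · rw [law_apply, if_neg (by omega)]
  · intro d hd ν _ _ hν p hp0 hp1
    obtain ⟨μ, hμ⟩ := exists_mixture hp0 hp1 ν
    refine ⟨μ, hμ, exists_marked μ (exists_poisson_E d hd), ?_⟩
    intro Ω _ P _ x D h
    have hfr : Module.finrank ℝ (EuclideanSpace ℝ (Fin d)) = d := by simp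
    exact main (growth_of_normed (EuclideanSpace ℝ (Fin d)) (by rw [hfr]; exact hd)) h
      (heavy_mixture hp1 hμ hν)

end Pool.Agent.Results.MP_bae357_pr.HeavyTailsPercolate
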